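import Mathlib
import Pool.Agent.H16.Trade

set_option autoImplicit false

namespace Pool.Agent.Results.MP_f34218_co.No

open Pool.Agent.H16.Trade

theorem result : ¬ ∃ (n : ℕ) (H : Matrix (Fin n) (Fin n) ℂ) (T : Finset (Fin n × Fin n)),
    1 ≤ n ∧ CH H ∧ IsTrade H T ∧ T.card < n :=
  fun ⟨_, H, T, _, h1, h2, h3⟩ => absurd (main H T h1 h2) (not_le.2 h3)

end Pool.Agent.Results.MP_f34218_co.No
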